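import Pool.Agent.Run7.h115.HK.Iface

/-!
# HK, piece A1: calculus of `exp (t (1 - 1 / x))` on `[0, 1]`
-/

open MeasureTheory Filter Topology Set

namespace Run7.h682.HK

open Run7.h115.HK

lemma tay1 (y : ℝ) : |Real.exp y - 1| ≤ |y| * Real.exp |y| := by
  have h := Complex.norm_exp_sub_sum_le_norm_mul_exp (y : ℂ) 1
  have e : Complex.exp (y : ℂ) - ∑ m ∈ Finset.range 1, (y : ℂ) ^ m / (m.factorial : ℂ) =
      ((Real.exp y - 1 : ℝ) : ℂ) := by
    simp
  rw [e, Complex.norm_real, Complex.norm_real, Real.norm_eq_abs, Real.norm_eq_abs, pow_one] at h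
  exact h

lemma tay2 (y : ℝ) : |Real.exp y - 1 - y| ≤ |y| ^ 2 * Real.exp |y| := by
  have h := Complex.norm_exp_sub_sum_le_norm_mul_exp (y : ℂ) 2
  have e : Complex.exp (y : ℂ) - ∑ m ∈ Finset.range 2, (y : ℂ) ^ m / (m.factorial : ℂ) =
      ((Real.exp y - 1 - y : ℝ) : ℂ) := by
    simp [Finset.sum_range_succ]
    ring
  rw [e, Complex.norm_real, Complex.norm_real, Real.norm_eq_abs, Real.norm_eq_abs] at h
  exact h

/-- `a e^{-sa} ≤ 1 / s` -/
lemma b1 {s a : ℝ} (hs : 0 < s) : a * Real.exp (-(s * a)) ≤ 1 / s := by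
  have h := Real.add_one_le_exp (s * a)
  rw [Real.exp_neg, ← div_eq_mul_inv, div_le_div_iff₀ (Real.exp_pos _) hs]
  nlinarith

/-- `a² e^{-sa} ≤ 2 / s²` -/
lemma b2 {s a : ℝ} (hs : 0 < s) (ha : 0 ≤ a) : a ^ 2 * Real.exp (-(s * a)) ≤ 2 / s ^ 2 := by
  have h := Real.quadratic_le_exp_of_nonneg (x := s * a) (by positivity)
  have h2 : 0 ≤ s * a := by positivity
  rw [Real.exp_neg, ← div_eq_mul_inv, div_le_div_iff₀ (Real.exp_pos _) (by positivity)]
  nlinarith

lemma ff_zero (t : ℝ) : ff t 0 = 0 := by simp [ff]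

/-- in the variable `a = 1 / x - 1` -/
lemma ff_eq (t : ℝ) {x : ℝ} (hx : 0 < x) : ff t x = Real.exp (-(t * (1 / x - 1))) := by
  rw [ff, if_pos hx]
  congr 1
  field_simp
  ring

lemma inv_ge {x : ℝ} (hx : 0 < x) (h1 : x ≤ 1) : 0 ≤ 1 / x - 1 := by
  have : 1 ≤ 1 / x := by
    rw [le_div_iff₀ hx]
    linarith
  linarith

lemma ff_nonneg (t x : ℝ) : 0 ≤ ff t x := by
  unfold ff
  split_ifs
  · exact (Real.exp_pos _).le
  · exact le_rfl

lemma ff_le_one {t : ℝ} (ht : 0 < t) {x : ℝ} (hx : x ∈ Icc (0 : ℝ) 1) : ff t x ≤ 1 := by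
  rcases hx.1.eq_or_lt with h | h
  · rw [← h, ff_zero]
    exact zero_le_one
  · rw [ff_eq t h]
    apply Real.exp_le_one_iff.2
    have := mul_nonneg ht.le (inv_ge h hx.2)
    linarith

/-- `ff t x ≤ C x²` -/
lemma ff_le_sq {t : ℝ} (ht : 0 < t) {x : ℝ} (hx : x ∈ Icc (0 : ℝ) 1) :
    ff t x ≤ (4 / t ^ 2 + 2) * x ^ 2 := by
  rcases hx.1.eq_or_lt with h | h
  · rw [← h, ff_zero]
    simp
  · have ha := inv_ge h hx.2
    set a := 1 / x - 1 with hadef
    have h1 : Real.exp (-(t * a)) ≤ 1 := Real.exp_le_one_iff.2 (by nlinarith)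
    have h2 := b2 ht ha
    have h0 := Real.exp_pos (-(t * a))
    have hxa : x * (a + 1) = 1 := by
      rw [hadef]
      field_simp
      ring
    have h3 : (a + 1) ^ 2 * Real.exp (-(t * a)) ≤ 4 / t ^ 2 + 2 := by
      have : (a + 1) ^ 2 ≤ 2 * a ^ 2 + 2 := by nlinarith [sq_nonneg (a - 1)]
      have h4 : (a + 1) ^ 2 * Real.exp (-(t * a)) ≤ (2 * a ^ 2 + 2) * Real.exp (-(t * a)) :=
        mul_le_mul_of_nonneg_right this h0.le
      have h5 : (4 : ℝ) / t ^ 2 = 2 * (2 / t ^ 2) := by ring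
      rw [h5]
      nlinarith
    rw [ff_eq t h, ← hadef]
    have h6 : Real.exp (-(t * a)) = ((a + 1) ^ 2 * Real.exp (-(t * a))) * x ^ 2 := by
      have : (a + 1) ^ 2 * Real.exp (-(t * a)) * x ^ 2 = (x * (a + 1)) ^ 2 * Real.exp (-(t * a)) := by
        ring
      rw [this, hxa]
      ring
    rw [h6]
    exact mul_le_mul_of_nonneg_right h3 (sq_nonneg x)

lemma ff_div_le {t : ℝ} (ht : 0 < t) {x : ℝ} (hx : x ∈ Icc (0 : ℝ) 1) :
    ff t x / x ≤ (4 / t ^ 2 + 2) * x := by
  rcases hx.1.eq_or_lt with h | h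
  · rw [← h, ff_zero]
    simp
  · rw [div_le_iff₀ h]
    have := ff_le_sq ht hx
    nlinarith

lemma cont_of_bound {g : ℝ → ℝ} (C : ℝ) (h0 : ContinuousOn g (Ioi 0))
    (hb : ∀ x ∈ Icc (0 : ℝ) 1, |g x| ≤ C * x) : ContinuousOn g (Icc 0 1) := by
  intro x hx
  rcases hx.1.eq_or_lt with h | h
  · subst h
    have hg0 : g 0 = 0 := by
      have := hb 0 hx
      rw [mul_zero] at this
      exact abs_eq_zero.1 (le_antisymm this (abs_nonneg _))
    rw [ContinuousWithinAt, hg0]
    apply squeeze_zero_norm' (a := fun x => C * x)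
    · filter_upwards [self_mem_nhdsWithin] with y hy
      exact hb y hy
    · have : Tendsto (fun x : ℝ => C * x) (𝓝 0) (𝓝 (C * 0)) :=
        (continuous_const.mul continuous_id).tendsto 0
      rw [mul_zero] at this
      exact this.mono_left nhdsWithin_le_nhds
  · exact (h0.continuousAt (Ioi_mem_nhds h)).continuousWithinAt

lemma cont_ff_pos (t : ℝ) : ContinuousOn (ff t) (Ioi 0) := by
  have h : ContinuousOn (fun x : ℝ => Real.exp (t - t / x)) (Ioi 0) := by
    apply Real.continuous_exp.comp_continuousOn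
    exact continuousOn_const.sub (continuousOn_const.div continuousOn_id fun x hx => ne_of_gt hx)
  refine h.congr fun x hx => ?_
  have hx' : (0 : ℝ) < x := hx
  simp only [ff, if_pos hx']

lemma cont1 {t : ℝ} (ht : 0 < t) : ContinuousOn (ff t) (Icc 0 1) := by
  apply cont_of_bound (4 / t ^ 2 + 2) (cont_ff_pos t)
  intro x hx
  rw [abs_of_nonneg (ff_nonneg t x)]
  refine (ff_le_sq ht hx).trans ?_
  have h1 : 0 ≤ 4 / t ^ 2 + 2 := by positivity
  have h2 : x ^ 2 ≤ x := by nlinarith [hx.1, hx.2]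
  exact mul_le_mul_of_nonneg_left h2 h1

lemma cont2 {t : ℝ} (ht : 0 < t) : ContinuousOn (fun x => ff t x / x) (Icc 0 1) := by
  have hc : ContinuousOn (fun x => ff t x / x) (Ioi 0) :=
    (cont_ff_pos t).div continuousOn_id fun x hx => ne_of_gt hx
  apply cont_of_bound (4 / t ^ 2 + 2) hc
  intro x hx
  rw [abs_of_nonneg (div_nonneg (ff_nonneg t x) hx.1)]
  exact ff_div_le ht hx

lemma cont3 {t : ℝ} (ht : 0 < t) : ContinuousOn (fun x => ff t x * (1 - 1 / x)) (Icc 0 1) := by
  have h : ContinuousOn (fun x => ff t x - ff t x / x) (Icc 0 1) := (cont1 ht).sub (cont2 ht)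
  refine h.congr fun x _ => ?_
  simp only
  ring

lemma tu_of_bound {F : ℝ → ℝ → ℝ} {f : ℝ → ℝ} {l : Filter ℝ} {s : Set ℝ} (φ : ℝ → ℝ)
    (hφ : Tendsto φ l (𝓝 0)) (h : ∀ᶠ r in l, ∀ x ∈ s, |F r x - f x| ≤ φ r) :
    TendstoUniformlyOn F f l s := by
  rw [Metric.tendstoUniformlyOn_iff]
  intro ε hε
  filter_upwards [h, hφ.eventually_lt_const hε] with r h1 h2 x hx
  rw [dist_comm, Real.dist_eq]
  exact (h1 x hx).trans_lt h2

/-- the basic estimate of order one -/
lemma est1 {t h a : ℝ} (hh : |h| ≤ t / 2) (ha : 0 ≤ a) :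
    |Real.exp (-((t + h) * a)) - Real.exp (-(t * a))| ≤
      |h| * (a * Real.exp (-(t / 2 * a))) := by
  have e1 : Real.exp (-((t + h) * a)) - Real.exp (-(t * a)) =
      Real.exp (-(t * a)) * (Real.exp (-(h * a)) - 1) := by
    rw [mul_sub, ← Real.exp_add, mul_one]
    congr 2
    ring
  rw [e1, abs_mul, abs_of_pos (Real.exp_pos _)]
  have h1 := tay1 (-(h * a))
  have h2 : |-(h * a)| = |h| * a := by rw [abs_neg, abs_mul, abs_of_nonneg ha]
  rw [h2] at h1
  calc Real.exp (-(t * a)) * |Real.exp (-(h * a)) - 1|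
      ≤ Real.exp (-(t * a)) * (|h| * a * Real.exp (|h| * a)) :=
        mul_le_mul_of_nonneg_left h1 (Real.exp_pos _).le
    _ = |h| * (a * Real.exp (-(t * a) + |h| * a)) := by
        rw [Real.exp_add]
        ring
    _ ≤ |h| * (a * Real.exp (-(t / 2 * a))) := by
        apply mul_le_mul_of_nonneg_left _ (abs_nonneg h)
        apply mul_le_mul_of_nonneg_left _ ha
        apply Real.exp_le_exp.2
        nlinarith

/-- the basic estimate of order two -/
lemma est2 {t h a : ℝ} (hh : |h| ≤ t / 2) (ha : 0 ≤ a) :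
    |Real.exp (-((t + h) * a)) - Real.exp (-(t * a)) + h * (a * Real.exp (-(t * a)))| ≤
      |h| ^ 2 * (a ^ 2 * Real.exp (-(t / 2 * a))) := by
  have e1 : Real.exp (-((t + h) * a)) - Real.exp (-(t * a)) + h * (a * Real.exp (-(t * a))) =
      Real.exp (-(t * a)) * (Real.exp (-(h * a)) - 1 - (-(h * a))) := by
    have : Real.exp (-((t + h) * a)) = Real.exp (-(t * a)) * Real.exp (-(h * a)) := by
      rw [← Real.exp_add]
      congr 1
      ring
    rw [this]
    ring
  rw [e1, abs_mul, abs_of_pos (Real.exp_pos _)]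
  have h1 := tay2 (-(h * a))
  have h2 : |-(h * a)| = |h| * a := by rw [abs_neg, abs_mul, abs_of_nonneg ha]
  rw [h2] at h1
  calc Real.exp (-(t * a)) * |Real.exp (-(h * a)) - 1 - (-(h * a))|
      ≤ Real.exp (-(t * a)) * ((|h| * a) ^ 2 * Real.exp (|h| * a)) :=
        mul_le_mul_of_nonneg_left h1 (Real.exp_pos _).le
    _ = |h| ^ 2 * (a ^ 2 * Real.exp (-(t * a) + |h| * a)) := by
        rw [Real.exp_add]
        ring
    _ ≤ |h| ^ 2 * (a ^ 2 * Real.exp (-(t / 2 * a))) := by
        apply mul_le_mul_of_nonneg_left _ (by positivity)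
        apply mul_le_mul_of_nonneg_left _ (by positivity)
        apply Real.exp_le_exp.2
        nlinarith

lemma unif1 {t : ℝ} (ht : 0 < t) :
    TendstoUniformlyOn (fun (h : ℝ) x => (ff (t + h) x - ff t x) / h)
      (fun x => ff t x * (1 - 1 / x)) (𝓝[≠] 0) (Icc 0 1) := by
  apply tu_of_bound (fun h => |h| * (2 / (t / 2) ^ 2))
  · have : Tendsto (fun h : ℝ => |h| * (2 / (t / 2) ^ 2)) (𝓝 0) (𝓝 (|(0 : ℝ)| * (2 / (t / 2) ^ 2))) :=
      (continuous_abs.mul continuous_const).tendsto 0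
    rw [abs_zero, zero_mul] at this
    exact this.mono_left nhdsWithin_le_nhds
  · have h1 : ∀ᶠ h : ℝ in 𝓝[≠] 0, |h| ≤ t / 2 := by
      apply Filter.Eventually.filter_mono nhdsWithin_le_nhds
      have : Tendsto (fun h : ℝ => |h|) (𝓝 0) (𝓝 |(0 : ℝ)|) := continuous_abs.tendsto 0
      rw [abs_zero] at this
      exact (this.eventually_lt_const (by positivity : (0 : ℝ) < t / 2)).mono fun _ h => h.le
    filter_upwards [h1, self_mem_nhdsWithin] with h hh hne x hx
    have hne' : h ≠ 0 := hne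
    rcases hx.1.eq_or_lt with h0 | h0
    · rw [← h0, ff_zero, ff_zero]
      simp
      positivity
    · have ha := inv_ge h0 hx.2
      rw [ff_eq t h0, ff_eq (t + h) h0]
      set a := 1 / x - 1 with hadef
      have hxx : 1 - 1 / x = -a := by rw [hadef]; ring
      rw [hxx]
      have e := est2 hh ha
      have hb := b2 (s := t / 2) (by positivity) ha
      have e2 : (Real.exp (-((t + h) * a)) - Real.exp (-(t * a))) / h -
          Real.exp (-(t * a)) * -a =
          (Real.exp (-((t + h) * a)) - Real.exp (-(t * a)) + h * (a * Real.exp (-(t * a)))) / h := by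
        field_simp
        ring
      rw [e2, abs_div, div_le_iff₀ (abs_pos.2 hne')]
      refine e.trans ?_
      have : |h| * (2 / (t / 2) ^ 2) * |h| = |h| ^ 2 * (2 / (t / 2) ^ 2) := by ring
      rw [this]
      exact mul_le_mul_of_nonneg_left hb (by positivity)

lemma unif2 {t : ℝ} (ht : 0 < t) :
    TendstoUniformlyOn (fun (s : ℝ) x => ff s x / x) (fun x => ff t x / x) (𝓝 t) (Icc 0 1) := by
  apply tu_of_bound (fun s => |s - t| * (2 / (t / 2) ^ 2 + 1 / (t / 2)))
  · have : Tendsto (fun s : ℝ => |s - t| * (2 / (t / 2) ^ 2 + 1 / (t / 2))) (𝓝 t)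
        (𝓝 (|t - t| * (2 / (t / 2) ^ 2 + 1 / (t / 2)))) :=
      ((continuous_abs.comp (continuous_id.sub continuous_const)).mul continuous_const).tendsto t
    rw [sub_self, abs_zero, zero_mul] at this
    exact this
  · have h1 : ∀ᶠ s : ℝ in 𝓝 t, |s - t| ≤ t / 2 := by
      have : Tendsto (fun s : ℝ => |s - t|) (𝓝 t) (𝓝 |t - t|) :=
        (continuous_abs.comp (continuous_id.sub continuous_const)).tendsto t
      rw [sub_self, abs_zero] at this
      exact (this.eventually_lt_const (by positivity : (0 : ℝ) < t / 2)).mono fun _ h => h.le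
    filter_upwards [h1] with s hs x hx
    rcases hx.1.eq_or_lt with h0 | h0
    · rw [← h0, ff_zero, ff_zero]
      simp
      positivity
    · have ha := inv_ge h0 hx.2
      rw [ff_eq t h0, ff_eq s h0]
      set a := 1 / x - 1 with hadef
      have hinv : 1 / x = a + 1 := by rw [hadef]; ring
      have e := est1 (h := s - t) hs ha
      have hts : t + (s - t) = s := by ring
      rw [hts] at e
      have hb := b2 (s := t / 2) (by positivity) ha
      have hb1 := b1 (s := t / 2) (a := a) (by positivity)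
      have e2 : Real.exp (-(s * a)) / x - Real.exp (-(t * a)) / x =
          (Real.exp (-(s * a)) - Real.exp (-(t * a))) * (a + 1) := by
        rw [← hinv]
        ring
      rw [e2, abs_mul, abs_of_nonneg (by positivity : 0 ≤ a + 1)]
      calc |Real.exp (-(s * a)) - Real.exp (-(t * a))| * (a + 1)
          ≤ |s - t| * (a * Real.exp (-(t / 2 * a))) * (a + 1) :=
            mul_le_mul_of_nonneg_right e (by positivity)
        _ = |s - t| * (a ^ 2 * Real.exp (-(t / 2 * a)) + a * Real.exp (-(t / 2 * a))) := by ring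
        _ ≤ |s - t| * (2 / (t / 2) ^ 2 + 1 / (t / 2)) :=
            mul_le_mul_of_nonneg_left (add_le_add hb hb1) (abs_nonneg _)

lemma unif3 : TendstoUniformlyOn (fun (t : ℝ) x => ff t x * x) (fun x => x) (𝓝[>] 0) (Icc 0 1) := by
  apply tu_of_bound (fun t => t)
  · exact nhdsWithin_le_nhds
  · filter_upwards [self_mem_nhdsWithin] with t ht x hx
    have ht' : (0 : ℝ) < t := ht
    rcases hx.1.eq_or_lt with h0 | h0
    · rw [← h0]
      simp
      exact ht'.le
    · have ha := inv_ge h0 hx.2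
      rw [ff_eq t h0]
      set a := 1 / x - 1 with hadef
      have hxa : x * a = 1 - x := by
        rw [hadef]
        field_simp
      have h1 := Real.add_one_le_exp (-(t * a))
      have h2 : Real.exp (-(t * a)) ≤ 1 := Real.exp_le_one_iff.2 (by nlinarith)
      rw [abs_sub_comm, abs_of_nonneg (by nlinarith)]
      have h3 : x * (1 - Real.exp (-(t * a))) ≤ x * (t * a) :=
        mul_le_mul_of_nonneg_left (by linarith) h0.le
      have h4 : x * (t * a) = t * (1 - x) := by rw [← hxa]; ring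
      nlinarith [hx.1, hx.2]

/-- piece A1 -/
theorem t_A1 : S_A1 :=
  ⟨fun _ ht => ⟨cont1 ht, cont2 ht, cont3 ht⟩, fun _ ht => unif1 ht, fun _ ht => unif2 ht, unif3,
    fun t ht x hx => ⟨ff_nonneg t x, ff_le_one ht hx⟩⟩

end Run7.h682.HK
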