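import Pool.Agent.Run7.h115.HK.Iface

/-!
# HK, piece A2: the semigroup
-/

open MeasureTheory Filter Topology Set
open ContinuousLinearMap (adjoint adjoint_inner_left adjoint_inner_right)

namespace Run7.h682.HK

open Run7.h115.HK

noncomputable section

variable {H V : Type} [NormedAddCommGroup H] [InnerProductSpace ℂ H] [CompleteSpace H]
  [NormedAddCommGroup V] [InnerProductSpace ℂ V] [CompleteSpace V]

/-- `J J†` -/
def BB (J : V →L[ℂ] H) : H →L[ℂ] H := J ∘L adjoint J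

omit [CompleteSpace V] [CompleteSpace H] in
lemma norm_J_le {J : V →L[ℂ] H} (hJ : ∀ x, ‖J x‖ ≤ ‖x‖) : ‖J‖ ≤ 1 :=
  ContinuousLinearMap.opNorm_le_bound _ zero_le_one fun x => by rw [one_mul]; exact hJ x

lemma BB_apply (J : V →L[ℂ] H) (x : H) : BB J x = J (adjoint J x) := rfl

lemma BB_pos (J : V →L[ℂ] H) : (BB J).IsPositive :=
  ContinuousLinearMap.isPositive_self_comp_adjoint J

lemma BB_sa (J : V →L[ℂ] H) : IsSelfAdjoint (BB J) := (BB_pos J).isSelfAdjoint

lemma BB_norm {J : V →L[ℂ] H} (hJ : ∀ x, ‖J x‖ ≤ ‖x‖) : ‖BB J‖ ≤ 1 := by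
  refine (ContinuousLinearMap.opNorm_comp_le _ _).trans ?_
  have h1 := norm_J_le hJ
  have h2 : ‖adjoint J‖ ≤ 1 := by rw [LinearIsometryEquiv.norm_map]; exact h1
  nlinarith [norm_nonneg J, norm_nonneg (adjoint J)]

lemma BB_spec {J : V →L[ℂ] H} (hJ : ∀ x, ‖J x‖ ≤ ‖x‖) : spectrum ℝ (BB J) ⊆ Icc (0 : ℝ) 1 := by
  intro x hx
  have h0 : 0 ≤ x := by
    have := (BB_pos J).spectrumRestricts
    exact (SpectrumRestricts.nnreal_iff.1 this) x hx
  refine ⟨h0, ?_⟩
  have hn : Nontrivial (H →L[ℂ] H) := by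
    by_contra hc
    rw [not_nontrivial_iff_subsingleton] at hc
    rw [spectrum.of_subsingleton] at hx
    exact hx
  have h1 := spectrum.norm_le_norm_of_mem hx
  rw [Real.norm_eq_abs] at h1
  exact (le_abs_self x).trans (h1.trans (BB_norm hJ))

lemma BB_dense {J : V →L[ℂ] H} (hd : DenseRange J) : DenseRange (BB J) := by
  have h : (BB J).rangeᗮ = ⊥ := by
    rw [Submodule.eq_bot_iff]
    intro x hx
    have h1 : inner ℂ (BB J x) x = 0 := (Submodule.mem_orthogonal _ _).1 hx _ ⟨x, rfl⟩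
    have h2 : adjoint J x = 0 := by
      rw [BB_apply, ← adjoint_inner_right, inner_self_eq_zero] at h1
      exact h1
    have h3 : ∀ y, inner ℂ (J y) x = 0 := fun y => by
      rw [← adjoint_inner_right, h2, inner_zero_right]
    have h4 : ∀ z : H, inner ℂ z x = 0 := by
      intro z
      have hc : IsClosed {z : H | inner ℂ z x = 0} :=
        isClosed_eq (by fun_prop) continuous_const
      exact hd.induction_on z hc h3
    exact inner_self_eq_zero.1 (h4 x)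
  have h2 : Dense ((BB J).range : Set H) :=
    Submodule.dense_iff_topologicalClosure_eq_top.2 (Submodule.topologicalClosure_eq_top_iff.2 h)
  intro x
  have h5 := h2 x
  have h6 : range (BB J) = ((BB J).range : Set H) := by
    ext y
    simp
  rw [h6]
  exact h5

/-- the semigroup -/
def PP (J : V →L[ℂ] H) (t : ℝ) : H →L[ℂ] H := cfc (ff t) (BB J)

/-- its derivative -/
def PP' (J : V →L[ℂ] H) (t : ℝ) : H →L[ℂ] H := cfc (fun x => ff t x * (1 - 1 / x)) (BB J)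

/-- `B⁻¹ P t` -/
def GG (J : V →L[ℂ] H) (t : ℝ) : H →L[ℂ] H := cfc (fun x => ff t x / x) (BB J)

lemma ff_zero' (t : ℝ) : ff t 0 = 0 := by simp [ff]

lemma ff_add (s t : ℝ) (x : ℝ) : ff (s + t) x = ff s x * ff t x := by
  unfold ff
  split_ifs
  · rw [← Real.exp_add]
    congr 1
    ring
  · simp

lemma BG {J : V →L[ℂ] H} (hA : S_A1) (hJ : ∀ x, ‖J x‖ ≤ ‖x‖) {t : ℝ} (ht : 0 < t) :
    BB J * GG J t = PP J t := by
  have hs := BB_spec hJ
  have hc := (hA.1 t ht).2.1.mono hs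
  have h1 : BB J = cfc (fun x : ℝ => x) (BB J) := (cfc_id' ℝ (BB J) (BB_sa J)).symm
  have h2 : BB J * GG J t = cfc (fun x : ℝ => x) (BB J) * cfc (fun x => ff t x / x) (BB J) := by
    rw [← h1]
    rfl
  rw [h2, ← cfc_mul (fun x : ℝ => x) (fun x => ff t x / x) (BB J) (by fun_prop) hc]
  apply cfc_congr
  intro x hx
  rcases (hs hx).1.eq_or_lt with h | h
  · simp only [← h, ff_zero', zero_mul]
  · have : x ≠ 0 := h.ne'
    simp only
    field_simp

lemma PB {J : V →L[ℂ] H} (hA : S_A1) (hJ : ∀ x, ‖J x‖ ≤ ‖x‖) {t : ℝ} (ht : 0 < t) :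
    PP J t * BB J = cfc (fun x => ff t x * x) (BB J) := by
  have hs := BB_spec hJ
  have hc := (hA.1 t ht).1.mono hs
  have h1 : BB J = cfc (fun x : ℝ => x) (BB J) := (cfc_id' ℝ (BB J) (BB_sa J)).symm
  rw [cfc_mul (ff t) (fun x : ℝ => x) (BB J) hc (by fun_prop), ← h1]
  rfl

lemma GP {J : V →L[ℂ] H} (hA : S_A1) (hJ : ∀ x, ‖J x‖ ≤ ‖x‖) {s t : ℝ} (hs' : 0 < s)
    (ht : 0 < t) : GG J (s + t) = GG J s * PP J t := by
  have hs := BB_spec hJ
  have hc := (hA.1 t ht).1.mono hs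
  have hc2 := (hA.1 s hs').2.1.mono hs
  unfold GG PP
  rw [← cfc_mul (fun x => ff s x / x) (ff t) (BB J) hc2 hc]
  apply cfc_congr
  intro x _
  simp only [ff_add]
  ring

lemma P'eq {J : V →L[ℂ] H} (hA : S_A1) (hJ : ∀ x, ‖J x‖ ≤ ‖x‖) {t : ℝ} (ht : 0 < t) :
    PP' J t = PP J t - GG J t := by
  have hs := BB_spec hJ
  have hc := (hA.1 t ht).1.mono hs
  have hc2 := (hA.1 t ht).2.1.mono hs
  unfold GG PP PP'
  rw [← cfc_sub (ff t) (fun x => ff t x / x) (BB J) hc hc2]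
  apply cfc_congr
  intro x _
  simp only
  ring

lemma P_sa (J : V →L[ℂ] H) (t : ℝ) : IsSelfAdjoint (PP J t) := cfc_predicate (ff t) (BB J)

lemma P_norm {J : V →L[ℂ] H} (hA : S_A1) (hJ : ∀ x, ‖J x‖ ≤ ‖x‖) {t : ℝ} (ht : 0 < t) :
    ‖PP J t‖ ≤ 1 := by
  apply norm_cfc_le zero_le_one
  intro x hx
  have := hA.2.2.2.2 t ht x (BB_spec hJ hx)
  rw [Real.norm_eq_abs, abs_of_nonneg this.1]
  exact this.2

lemma P_der {J : V →L[ℂ] H} (hA : S_A1) (hJ : ∀ x, ‖J x‖ ≤ ‖x‖) {t : ℝ} (ht : 0 < t) :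
    HasDerivAt (PP J) (PP' J t) t := by
  have hs := BB_spec hJ
  rw [hasDerivAt_iff_tendsto_slope_zero]
  have hev : ∀ᶠ h : ℝ in 𝓝[≠] 0, 0 < t + h := by
    apply Filter.Eventually.filter_mono nhdsWithin_le_nhds
    have : Tendsto (fun h : ℝ => t + h) (𝓝 0) (𝓝 (t + 0)) :=
      (continuous_const.add continuous_id).tendsto 0
    rw [add_zero] at this
    exact this.eventually_const_lt ht
  have hc := (hA.1 t ht).1.mono hs
  have h1 := tendsto_cfc_fun (a := BB J) ((hA.2.1 t ht).mono hs) (by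
    filter_upwards [hev] with h hh
    exact (((hA.1 (t + h) hh).1.mono hs).sub hc).div_const h)
  refine h1.congr' ?_
  filter_upwards [hev] with h hh
  unfold PP
  rw [← cfc_sub (ff (t + h)) (ff t) (BB J) ((hA.1 (t + h) hh).1.mono hs) hc,
    ← cfc_smul h⁻¹ (fun x => ff (t + h) x - ff t x) (BB J)
      (((hA.1 (t + h) hh).1.mono hs).sub hc)]
  apply cfc_congr
  intro x _
  simp only [smul_eq_mul]
  ring

lemma G_cont {J : V →L[ℂ] H} (hA : S_A1) (hJ : ∀ x, ‖J x‖ ≤ ‖x‖) {t : ℝ} (ht : 0 < t) :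
    ContinuousAt (GG J) t := by
  have hs := BB_spec hJ
  apply tendsto_cfc_fun ((hA.2.2.1 t ht).mono hs)
  filter_upwards [Ioi_mem_nhds ht] with s hs'
  exact (hA.1 s hs').2.1.mono hs

lemma PB_tendsto {J : V →L[ℂ] H} (hA : S_A1) (hJ : ∀ x, ‖J x‖ ≤ ‖x‖) :
    Tendsto (fun t => PP J t * BB J) (𝓝[>] 0) (𝓝 (BB J)) := by
  have hs := BB_spec hJ
  have h1 : BB J = cfc (fun x : ℝ => x) (BB J) := (cfc_id' ℝ (BB J) (BB_sa J)).symm
  have h2 := tendsto_cfc_fun (a := BB J) (hA.2.2.2.1.mono hs) (by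
    filter_upwards [self_mem_nhdsWithin] with t ht
    exact ((hA.1 t ht).1.mono hs).mul continuousOn_id)
  rw [← h1] at h2
  refine h2.congr' ?_
  filter_upwards [self_mem_nhdsWithin] with t ht
  exact (PB hA hJ ht).symm

lemma P_zero {J : V →L[ℂ] H} (hA : S_A1) (hJ : ∀ x, ‖J x‖ ≤ ‖x‖) (hd : DenseRange J) (f : H) :
    Tendsto (fun t => PP J t f) (𝓝[>] 0) (𝓝 f) := by
  rw [Metric.tendsto_nhds]
  intro ε hε
  obtain ⟨g, hg⟩ := (BB_dense hd).exists_dist_lt f (ε := ε / 3) (by positivity)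
  have h1 : Tendsto (fun t => (PP J t * BB J) g) (𝓝[>] 0) (𝓝 (BB J g)) :=
    ((ContinuousLinearMap.apply ℂ H g).continuous.tendsto _).comp (PB_tendsto hA hJ)
  rw [Metric.tendsto_nhds] at h1
  filter_upwards [h1 (ε / 3) (by positivity), self_mem_nhdsWithin] with t h2 ht
  have h3 : dist (PP J t f) (PP J t (BB J g)) < ε / 3 := by
    rw [dist_eq_norm, ← map_sub]
    refine ((PP J t).le_opNorm _).trans_lt ?_
    have h4 := P_norm hA hJ ht
    rw [dist_eq_norm] at hg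
    nlinarith [norm_nonneg (f - BB J g)]
  have h5 : dist (PP J t (BB J g)) (BB J g) < ε / 3 := h2
  rw [dist_comm] at hg
  calc dist (PP J t f) f ≤ dist (PP J t f) (PP J t (BB J g)) + dist (PP J t (BB J g)) (BB J g) +
        dist (BB J g) f := dist_triangle4 _ _ _ _
    _ < ε := by linarith

/-- piece A2 -/
theorem t_A2 : S_A1 → S_A2 := by
  intro hA H V _ _ _ _ _ _ J hJ hd
  refine ⟨PP J, PP' J, fun t => adjoint J ∘L GG J t, ?_, ?_, ?_, ?_, ?_, ?_, ?_⟩
  · intro t ht f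
    rw [← BG hA hJ ht]
    rfl
  · intro t ht f g
    have h := P_sa J t
    rw [ContinuousLinearMap.isSelfAdjoint_iff'] at h
    rw [← adjoint_inner_right, h]
  · intro s t hs ht f
    rw [GP hA hJ hs ht]
    rfl
  · exact P_zero hA hJ hd
  · exact fun t ht => P_der hA hJ ht
  · intro t ht
    apply ContinuousAt.continuousWithinAt
    exact continuousAt_const.clm_comp (G_cont hA hJ ht)
  · intro t ht f φ
    rw [P'eq hA hJ ht]
    simp only [ContinuousLinearMap.comp_apply, sub_apply, inner_sub_right,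
      adjoint_inner_right]
    ring

end

end Run7.h682.HK
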